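import Pool.Agent.X266.PYJ.Few

set_option autoImplicit false

/-!
# Pythagorean triples for joins of automatic and generalised polynomial colourings

The starting results `AutomaticColourings` and `GeneralisedPolynomialColourings` find monochromatic
Pythagorean triples for colourings given by finitely many automatic sequences (in arbitrary bases),
respectively by the signs of finitely many generalised polynomials.  Here the two kinds are combined.

1. A colouring `χ` has few breaks if for some `B`, all `A` and all dilations `d` in an IP* set the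
colouring `x ↦ χ (d x)` of `[1, A]` is constant on the intervals which avoid some `B` numbers.  The
sign patterns of generalised polynomials have few breaks, and so has `⌊h n⌋` for every monotone `h`
with `h (2 n) - h n → 0` (for instance `√(log n)` or `log log n`).
2. For all finitely many automatic sequences, in arbitrary bases, and all finitely many colourings
with few breaks there are arbitrarily large Pythagorean triples on which all of them are constant.

Method.  The triples for the automatic sequences are `X, Y, Z` times a sum of far apart blocks.  We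
find them at arbitrarily many scales (`X y_e, Y y_e, Z y_e`, where `y_e` is close to a power of every
base) and for an IP set of dilations; the number of scales needed is known beforehand, since the
number of breaks does not depend on the idempotent ultrafilter.
-/

namespace Pool.Agent.Results.MP_0f91f8_co.AutomaticAndPolynomial

open Filter Topology

/-- Generalised polynomials: obtained from real constants and the variable by addition,
multiplication and the floor function. -/
inductive GenPoly : (ℕ → ℝ) → Prop
  | const (c : ℝ) : GenPoly (fun _ => c)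
  | var : GenPoly (fun n => (n : ℝ))
  | add {f g : ℕ → ℝ} : GenPoly f → GenPoly g → GenPoly (fun n => f n + g n)
  | mul {f g : ℕ → ℝ} : GenPoly f → GenPoly g → GenPoly (fun n => f n * g n)
  | floor {f : ℕ → ℝ} : GenPoly f → GenPoly (fun n => (⌊f n⌋ : ℝ))

/-- `c` is `k`-automatic: its `k`-kernel, the set of all subsequences `n ↦ c (k ^ i * n + j)` with
`j < k ^ i`, is finite. -/
def IsAutomatic {C : Type} (k : ℕ) (c : ℕ → C) : Prop :=
  {f : ℕ → C | ∃ i j : ℕ, j < k ^ i ∧ f = fun n => c (k ^ i * n + j)}.Finite

/-- `G` is an IP* set: it contains a finite nonempty sum of distinct terms of every sequence of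
positive integers. -/
def IPstar (G : Set ℕ) : Prop :=
  ∀ u : ℕ → ℕ, (∀ j, 0 < u j) → ∃ J : Finset ℕ, J.Nonempty ∧ ∑ j ∈ J, u j ∈ G

/-- For some `B`, for all `A` and for all `d` in an IP* set (depending on `A`) the colouring
`x ↦ χ (d * x)` of `[1, A]` is constant on all the intervals `[x, y]` which avoid some set of at
most `B` numbers. -/
def FewBreaks {κ : Type} (χ : ℕ → κ) : Prop :=
  ∃ B : ℕ, ∀ A : ℕ, IPstar {d | ∃ S : Finset ℕ, S.card ≤ B ∧
    ∀ x y : ℕ, 1 ≤ x → x ≤ y → y ≤ A → (∀ r ∈ S, ¬ (x ≤ r ∧ r ≤ y)) → χ (d * x) = χ (d * y)}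

theorem GenPoly.toEx {f : ℕ → ℝ} (h : GenPoly f) : ∃ e : H638.GP.Ex, ∀ n, e.ev n = f n := by
  induction h with
  | const c => exact ⟨.const c, fun n => rfl⟩
  | var => exact ⟨.var, fun n => rfl⟩
  | add _ _ h1 h2 =>
    obtain ⟨a, ha⟩ := h1
    obtain ⟨b, hb⟩ := h2
    exact ⟨.add a b, fun n => by simp only [H638.GP.Ex.ev]; rw [ha, hb]⟩
  | mul _ _ h1 h2 =>
    obtain ⟨a, ha⟩ := h1
    obtain ⟨b, hb⟩ := h2
    exact ⟨.mul a b, fun n => by simp only [H638.GP.Ex.ev]; rw [ha, hb]⟩
  | floor _ h1 =>
    obtain ⟨a, ha⟩ := h1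
    exact ⟨.fl a, fun n => by simp only [H638.GP.Ex.ev]; rw [ha]⟩

/-- (1) The signs of generalised polynomials and the integral parts of slowly growing monotone
functions have few breaks. (2) Let `c t` be finitely many automatic sequences, in bases `k t ≥ 2`,
and let `χ i` be finitely many colourings with few breaks. Then there are arbitrarily large
Pythagorean triples on which all `c t` and all `χ i` are constant. (3) In particular: for all
finitely many automatic sequences `c t` and finitely many generalised polynomials `g i` there are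
arbitrarily large Pythagorean triples on which all `c t` are constant and all `g i` have constant
sign (`-`, `0` or `+`). -/
theorem result :
    (∀ g : ℕ → ℝ, GenPoly g → FewBreaks (fun n => SignType.sign (g n))) ∧
    (∀ h : ℕ → ℝ, Monotone h → Tendsto (fun n => h (2 * n) - h n) atTop (𝓝 0) →
      FewBreaks (fun n => ⌊h n⌋)) ∧
    (∀ (m n : ℕ) (k : Fin m → ℕ) (C κ : Type) (c : Fin m → ℕ → C) (χ : Fin n → ℕ → κ),
      (∀ t, 2 ≤ k t) → (∀ t, IsAutomatic (k t) (c t)) → (∀ i, FewBreaks (χ i)) →
      ∀ K : ℕ, ∃ x y z : ℕ, K < x ∧ K < y ∧ K < z ∧ x ^ 2 + y ^ 2 = z ^ 2 ∧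
        (∀ t, c t x = c t y ∧ c t y = c t z) ∧ ∀ i, χ i x = χ i y ∧ χ i y = χ i z) ∧
    (∀ (m n : ℕ) (k : Fin m → ℕ) (C : Type) (c : Fin m → ℕ → C) (g : Fin n → ℕ → ℝ),
      (∀ t, 2 ≤ k t) → (∀ t, IsAutomatic (k t) (c t)) → (∀ i, GenPoly (g i)) →
      ∀ K : ℕ, ∃ x y z : ℕ, K < x ∧ K < y ∧ K < z ∧ x ^ 2 + y ^ 2 = z ^ 2 ∧
        (∀ t, c t x = c t y ∧ c t y = c t z) ∧
        ∀ i, SignType.sign (g i x) = SignType.sign (g i y) ∧
          SignType.sign (g i y) = SignType.sign (g i z)) := by
  have h1 : ∀ g : ℕ → ℝ, GenPoly g → FewBreaks (fun n => SignType.sign (g n)) := by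
    intro g hg
    obtain ⟨e, he⟩ := hg.toEx
    have := Pool.Agent.X266.PYJ.fewBreaks_sign e
    have h2 : (fun n => SignType.sign (e.ev n)) = fun n => SignType.sign (g n) := by
      funext n
      rw [he]
    rw [h2] at this
    exact this
  have h3 : ∀ (m n : ℕ) (k : Fin m → ℕ) (C κ : Type) (c : Fin m → ℕ → C) (χ : Fin n → ℕ → κ),
      (∀ t, 2 ≤ k t) → (∀ t, IsAutomatic (k t) (c t)) → (∀ i, FewBreaks (χ i)) →
      ∀ K : ℕ, ∃ x y z : ℕ, K < x ∧ K < y ∧ K < z ∧ x ^ 2 + y ^ 2 = z ^ 2 ∧
        (∀ t, c t x = c t y ∧ c t y = c t z) ∧ ∀ i, χ i x = χ i y ∧ χ i y = χ i z :=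
    fun m n k C κ c χ hk hc hχ K => Pool.Agent.X266.PYJ.join k hk c hc χ hχ K
  refine ⟨h1, fun h hm hs => Pool.Agent.X266.PYJ.fewBreaks_slow h hm hs, h3, ?_⟩
  intro m n k C c g hk hc hg K
  exact h3 m n k C SignType c (fun i n => SignType.sign (g i n)) hk hc (fun i => h1 _ (hg i)) K

end Pool.Agent.Results.MP_0f91f8_co.AutomaticAndPolynomial
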