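import Mathlib
import Pool.Agent.X3.NfaGen

/-!
# Pythagorean triples in colourings of small automatic complexity

A colouring of `{1, …, N}` without a monochromatic Pythagorean triple (even of the special form
`3 m, 4 m, 5 m`) has automatic complexity at least `N exp (-C √(log N))`, whatever the number of the
colours is.
-/

set_option autoImplicit false

namespace Pool.Agent.Results.MP_0f91f8_co.AutomaticComplexity

/-- The word `c 1, …, c N`. -/
def word {κ : Type} (c : ℕ → κ) (N : ℕ) : List κ := (List.range N).map fun i => c (i + 1)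

/-- The automatic complexity of a word: the least number of states of a nondeterministic finite
automaton that accepts `w` and no other word of the same length. -/
noncomputable def complexity {κ : Type} (w : List κ) : ℕ :=
  sInf {q : ℕ | ∃ M : NFA κ (Fin q), ∀ v : List κ, v.length = w.length → (v ∈ M.accepts ↔ v = w)}

/-- The number of words of length `N` accepted by the automaton. -/
noncomputable def numAccepted {κ : Type} {q : ℕ} (M : NFA κ (Fin q)) (N : ℕ) : ℕ :=
  {w : List κ | w ∈ M.accepts ∧ w.length = N}.ncard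

/-- There is a monochromatic Pythagorean triple in `{1, …, N}`. -/
def HasTriple {κ : Type} (c : ℕ → κ) (N : ℕ) : Prop :=
  ∃ x y z : ℕ, 1 ≤ x ∧ 1 ≤ y ∧ 1 ≤ z ∧ z ≤ N ∧ x ^ 2 + y ^ 2 = z ^ 2 ∧ c x = c y ∧ c y = c z

theorem comp_eq {κ : Type} (w : List κ) : complexity w = Pool.Agent.X3.NfaComp.comp w := rfl

open Pool.Agent.X3.NfaWords in
theorem noPer {κ : Type} {c : ℕ → κ} {N : ℕ} (h : ¬ HasTriple c N) :
    NoPerTo (fun i => c (i + 1)) 5 1 N := by
  intro u s v hu hs hv huv
  by_contra hcon
  push Not at hcon
  have huv' : 5 * (u + s) < v := by exact_mod_cast huv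
  apply h
  -- the period
  have hper : ∀ j, u + 1 ≤ j → ∀ t, j + t * s ≤ v → c (j + t * s) = c j := by
    intro j hj t
    induction t with
    | zero => intro _; simp
    | succ t ih =>
      intro ht
      have e : (t + 1) * s = t * s + s := by ring
      rw [e] at ht ⊢
      have h1 := hcon (j + t * s - 1) (by omega) (by omega)
      have h2 := ih (by omega)
      have e1 : j + t * s - 1 + s + 1 = j + (t * s + s) := by omega
      have e2 : j + t * s - 1 + 1 = j + t * s := by omega
      rw [e1, e2] at h1
      rw [h1, h2]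
  obtain ⟨m, hm⟩ : ∃ m, m = u / (3 * s) + 1 := ⟨_, rfl⟩
  have h1 : u < m * (3 * s) := by
    rw [hm]
    have h2 := Nat.div_add_mod u (3 * s)
    have h3 := Nat.mod_lt u (show 0 < 3 * s by omega)
    have h4 : (u / (3 * s) + 1) * (3 * s) = 3 * s * (u / (3 * s)) + 3 * s := by ring
    omega
  have h2 : m * (3 * s) ≤ u + 3 * s := by
    rw [hm]
    have h2 := Nat.div_mul_le_self u (3 * s)
    have h4 : (u / (3 * s) + 1) * (3 * s) = u / (3 * s) * (3 * s) + 3 * s := by ring
    omega
  have h3 : m * (3 * s) = 3 * (m * s) := by ring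
  have hms : 0 < m * s := by
    apply Nat.mul_pos _ hs
    rw [hm]
    exact Nat.succ_pos _
  have h5 := hper (3 * (m * s)) (by omega) m (by omega)
  have h6 := hper (4 * (m * s)) (by omega) m (by omega)
  have e5 : 3 * (m * s) + m * s = 4 * (m * s) := by ring
  have e6 : 4 * (m * s) + m * s = 5 * (m * s) := by ring
  rw [e5] at h5
  rw [e6] at h6
  exact ⟨3 * (m * s), 4 * (m * s), 5 * (m * s), by omega, by omega, by omega, by omega, by ring,
    h5.symm, h6.symm⟩

/-- (1) There is `C` such that for every set `κ` of colours (finite or infinite), every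
`c : ℕ → κ` and every `N`: if the word `c 1, …, c N` has automatic complexity less than
`N exp (-C √(log N))`, then there is a monochromatic Pythagorean triple in `{1, …, N}`.

(2) For every `δ ∈ (0, 1]` there are `η > 0` and `N₁` such that for every finite set `κ` of colours,
every `c : ℕ → κ` and every `N ≥ N₁`: if some nondeterministic finite automaton with at most
`N ^ (1 - δ)` states accepts fewer than `exp (η (log N) ^ 2)` words of length `N`, and accepts some
word of length `N` that differs from `c 1, …, c N` in at most `η log N` places, then there is a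
monochromatic Pythagorean triple in `{1, …, N}`. -/
theorem result :
    (∃ C : ℝ, ∀ (κ : Type) (c : ℕ → κ) (N : ℕ),
      (complexity (word c N) : ℝ) < N * Real.exp (-(C * Real.sqrt (Real.log N))) →
      HasTriple c N) ∧
    (∀ δ : ℝ, 0 < δ → δ ≤ 1 → ∃ η : ℝ, 0 < η ∧ ∃ N₁ : ℕ, ∀ (κ : Type) [Finite κ] (c : ℕ → κ)
      (N : ℕ), N₁ ≤ N → ∀ (q : ℕ) (M : NFA κ (Fin q)), (q : ℝ) ≤ (N : ℝ) ^ (1 - δ) →
      (numAccepted M N : ℝ) < Real.exp (η * Real.log N ^ 2) →
      ∀ c' : ℕ → κ, word c' N ∈ M.accepts →
        ({n : ℕ | 1 ≤ n ∧ n ≤ N ∧ c' n ≠ c n}.ncard : ℝ) ≤ η * Real.log N →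
        HasTriple c N) := by
  constructor
  · obtain ⟨C, -, h⟩ := Pool.Agent.X3.NfaGen.gen_states (show (1 : ℝ) < 5 by norm_num)
    refine ⟨C, fun κ c N hc => ?_⟩
    by_contra hcon
    have h1 := h κ (fun i => c (i + 1)) N (noPer hcon)
    rw [comp_eq] at hc
    exact absurd hc (not_lt.2 h1)
  · intro δ hδ hδ1
    obtain ⟨η, hη, N₁, h⟩ := Pool.Agent.X3.NfaGen.gen_words (show (1 : ℝ) < 5 by norm_num) δ hδ hδ1
    refine ⟨η, hη, N₁, fun κ _ c N hN q M hq hnum c' hacc herr => ?_⟩
    by_contra hcon
    classical
    have hfin : {n : ℕ | 1 ≤ n ∧ n ≤ N ∧ c' n ≠ c n}.Finite :=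
      (Set.finite_Iic N).subset fun n hn => hn.2.1
    have h1 := h κ (fun i => c (i + 1)) N hN (noPer hcon) q M hq (fun i => c' (i + 1))
      (hfin.toFinset.image fun n => n - 1) (by
        intro i hi hiE
        by_contra hne
        apply hiE
        rw [Finset.mem_image]
        refine ⟨i + 1, ?_, by omega⟩
        rw [Set.Finite.mem_toFinset]
        exact ⟨by omega, by omega, hne⟩) (by
        refine le_trans ?_ herr
        have h2 : (hfin.toFinset.image fun n => n - 1).card ≤
            {n : ℕ | 1 ≤ n ∧ n ≤ N ∧ c' n ≠ c n}.ncard := by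
          refine Finset.card_image_le.trans ?_
          rw [Set.ncard_eq_toFinset_card _ hfin]
        exact_mod_cast h2) hacc
    exact absurd hnum (not_lt.2 h1)

end Pool.Agent.Results.MP_0f91f8_co.AutomaticComplexity
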