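import Pool.Agent.X87.PM.Reduce

set_option autoImplicit false

/-!
# Pythagorean triples in colourings on which multiplication acts

(1) If a colouring of the positive integers with at most three colours has the property that, for
every prime `p ≤ 283`, the colour of `p n` depends only on the colour of `n`, then there are
monochromatic Pythagorean triples.  (2) The same holds for all completely multiplicative maps to
finite commutative semigroups all of whose subgroups have at most three elements.  In both cases a
second map which is constant on dilates of every finite set may be made constant as well; (3) this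
holds for the integer parts of slowly varying monotone functions.

Proof.  After multiplication by a suitable number the colouring is given, on the products of primes
up to `283` times any number, by a homomorphism to a group of order at most three.  For a
homomorphism from the positive rational numbers to `ZMod 2` or `ZMod 3` a finite search tree (the
values at the primes are chosen one after the other; every leaf is a Pythagorean triple, on which the
homomorphism is constant) is checked by the kernel.  For order three the primes up to `283` are
needed: for the cubic character modulo `277` no triple without a multiple of `277` is monochromatic.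
-/

namespace Pool.Agent.Results.MP_0f91f8_co.MultiplicativeThreeColourings

open Filter Topology
open Pool.Agent.X87.PM (Acts Dilates SmallSubgroups)

theorem result.{u, v} :
    (∀ (κ : Type u) (ι : Type v) (c : ℕ → κ) (g : ℕ → ι),
      (c '' {n | 0 < n}).encard ≤ 3 → Acts c → Dilates g → ∀ K : ℕ,
        ∃ x y z : ℕ, K < x ∧ K < y ∧ K < z ∧ x ^ 2 + y ^ 2 = z ^ 2 ∧
          c x = c z ∧ c y = c z ∧ g x = g z ∧ g y = g z) ∧
    (∀ (M : Type u) (ι : Type v) [CommSemigroup M] [Finite M] (f : ℕ → M) (g : ℕ → ι),
      SmallSubgroups M → (∀ a b : ℕ, 0 < a → 0 < b → f (a * b) = f a * f b) → Dilates g →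
        ∀ K : ℕ, ∃ x y z : ℕ, K < x ∧ K < y ∧ K < z ∧ x ^ 2 + y ^ 2 = z ^ 2 ∧
          f x = f z ∧ f y = f z ∧ g x = g z ∧ g y = g z) ∧
    (∀ h : ℕ → ℝ, Monotone h → Tendsto (fun n => h (2 * n) - h n) atTop (𝓝 0) →
      Dilates (fun n => ⌊h n⌋)) :=
  ⟨fun _ _ c g hcard hc hg K => Pool.Agent.X87.PM.main_colours c hcard hc g hg K,
    fun _ _ _ _ f g hM hf hg K => Pool.Agent.X87.PM.main_semigroup hM f hf g hg K,
    Pool.Agent.X87.PM.dilates_floor⟩

end Pool.Agent.Results.MP_0f91f8_co.MultiplicativeThreeColourings
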