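import Pool.Agent.X27.MC.Pair

/-!
# Pythagorean triples in colourings with multiplicatively closed classes

A partition of the positive integers into finitely many sets closed under multiplication has a part
which contains a dilate of every finite set.  Hence every homogeneous system solvable in positive
integers, for example `x² + y² = z²`, has monochromatic solutions, and these may be chosen
monochromatic for certain other colourings too: integer parts of slowly varying nondecreasing
functions, and at the same time three-colourings on which multiplication by small primes acts, or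
completely multiplicative maps to finite commutative semigroups with small subgroups (for these two
kinds the theorems of `MultiplicativeThreeColourings` are used).

Proof of the first statement.  The products of powers of the elements of a finite set `F` are
parametrised by `ℕ^F`, which is then partitioned into additive semigroups.  The rational span of one
of the classes is `ℚ^F`, as `ℚ^F` is not a finite union of proper subspaces.  So all unit vectors are
rational combinations of elements of this class; let `u` be the sum of the elements which occur.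
For large `M` a multiple of `M u + e_a` is a combination of these elements with positive integer
coefficients, so it is in the class, and therefore `M u + e_a` is in the class for all `a ∈ F`.
-/

set_option autoImplicit false

namespace Pool.Agent.Results.MP_0f91f8_co.MultiplicativelyClosed

open Filter Topology
open Pool.Agent.X27.MC (MulClosed)
open Pool.Agent.X87.PM (Acts SmallSubgroups)

theorem result.{u, v, w} :
    (∀ (C : Type u) [Finite C] (g : ℕ → C), MulClosed g →
      ∃ j : C, ∀ (F : Finset ℕ) (N : ℕ), ∃ k : ℕ, N < k ∧ ∀ a ∈ F, 0 < a → g (k * a) = j) ∧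
    (∀ (κ : Type v) (C : Type u) [Finite C] (c : ℕ → κ) (g : ℕ → C) (h : ℕ → ℝ),
      (c '' {n | 0 < n}).encard ≤ 3 → Acts c → MulClosed g → Monotone h →
      Tendsto (fun n => h (2 * n) - h n) atTop (𝓝 0) → ∀ K : ℕ,
        ∃ x y z : ℕ, K < x ∧ K < y ∧ K < z ∧ x ^ 2 + y ^ 2 = z ^ 2 ∧
          c x = c z ∧ c y = c z ∧ g x = g z ∧ g y = g z ∧ ⌊h x⌋ = ⌊h z⌋ ∧ ⌊h y⌋ = ⌊h z⌋) ∧
    (∀ (M : Type w) (C : Type u) [CommSemigroup M] [Finite M] [Finite C] (c : ℕ → M) (g : ℕ → C)
      (h : ℕ → ℝ), SmallSubgroups M → (∀ a b : ℕ, 0 < a → 0 < b → c (a * b) = c a * c b) →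
      MulClosed g → Monotone h → Tendsto (fun n => h (2 * n) - h n) atTop (𝓝 0) → ∀ K : ℕ,
        ∃ x y z : ℕ, K < x ∧ K < y ∧ K < z ∧ x ^ 2 + y ^ 2 = z ^ 2 ∧
          c x = c z ∧ c y = c z ∧ g x = g z ∧ g y = g z ∧ ⌊h x⌋ = ⌊h z⌋ ∧ ⌊h y⌋ = ⌊h z⌋) ∧
    (∀ (r : ℕ) (h : Fin r → ℕ → ℝ),
      (∀ i, ∀ a b : ℕ, 0 < a → 0 < b → h i (a * b) = h i a + h i b) →
        MulClosed (fun n i => SignType.sign (h i n))) := by
  refine ⟨fun C _ g hg => Pool.Agent.X27.MC.thick g hg, ?_, ?_,
    fun r h hh => Pool.Agent.X27.MC.sign_mulClosed h hh⟩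
  · intro κ C _ c g h hcard hc hg hm hl K
    obtain ⟨x, y, z, hx, hy, hz, he, h1, h2, h3, h4⟩ := Pool.Agent.X87.PM.main_colours c hcard hc
      (fun n => (g n, ⌊h n⌋)) (Pool.Agent.X27.MC.dilates_pair g hg h hm hl) K
    rw [Prod.mk.injEq] at h3 h4
    exact ⟨x, y, z, hx, hy, hz, he, h1, h2, h3.1, h4.1, h3.2, h4.2⟩
  · intro M C _ _ _ c g h hM hc hg hm hl K
    obtain ⟨x, y, z, hx, hy, hz, he, h1, h2, h3, h4⟩ := Pool.Agent.X87.PM.main_semigroup hM c hc
      (fun n => (g n, ⌊h n⌋)) (Pool.Agent.X27.MC.dilates_pair g hg h hm hl) K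
    rw [Prod.mk.injEq] at h3 h4
    exact ⟨x, y, z, hx, hy, hz, he, h1, h2, h3.1, h4.1, h3.2, h4.2⟩

end Pool.Agent.Results.MP_0f91f8_co.MultiplicativelyClosed
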